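import Pool.Agent.Helper93_ABCT.StmtK

/-!
# The valuation ring of an irreducible polynomial (module UHVR)
-/

open MvPolynomial

namespace PosGeom.H33

open PosGeom

section

variable {K : Type} [Field K] [Algebra ℂ K] {n : ℕ} {y : Fin n → K}

theorem phi_ne (hy : IsCoord y) {Q : MvPolynomial (Fin n) ℂ} (hQ : Q ≠ 0) : aeval y Q ≠ 0 := by
  intro h
  apply hQ
  have h1 : Function.Injective (aeval y : MvPolynomial (Fin n) ℂ →ₐ[ℂ] K) := hy.ind
  exact h1 (h.trans (map_zero _).symm)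

theorem exists_rep (hy : IsCoord y) (f : K) : ∃ P Q : MvPolynomial (Fin n) ℂ, Q ≠ 0 ∧
    f = aeval y P / aeval y Q := by
  have h1 : f ∈ IntermediateField.adjoin ℂ (Set.range y) := by
    rw [hy.gen]
    trivial
  obtain ⟨P, Q, h⟩ := (IntermediateField.mem_adjoin_range_iff ℂ y f).1 h1
  by_cases hQ : Q = 0
  · refine ⟨0, 1, one_ne_zero, ?_⟩
    rw [h, hQ]
    simp
  · exact ⟨P, Q, hQ, h⟩

theorem rep_eq (hy : IsCoord y) {P Q P' Q' : MvPolynomial (Fin n) ℂ} (hQ : Q ≠ 0) (hQ' : Q' ≠ 0)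
    (h : aeval y P / aeval y Q = aeval y P' / aeval y Q') : P * Q' = P' * Q := by
  rw [div_eq_div_iff (phi_ne hy hQ) (phi_ne hy hQ'), ← map_mul, ← map_mul] at h
  have h1 : Function.Injective (aeval y : MvPolynomial (Fin n) ℂ →ₐ[ℂ] K) := hy.ind
  exact h1 h

theorem exists_pow (h : MvPolynomial (Fin n) ℂ) (hh : Irreducible h)
    (P : MvPolynomial (Fin n) ℂ) (hP : P ≠ 0) : ∃ (a : ℕ) (P' : MvPolynomial (Fin n) ℂ),
    P = h ^ a * P' ∧ ¬ h ∣ P' := by
  have h1 : FiniteMultiplicity h P := FiniteMultiplicity.of_not_isUnit hh.not_isUnit hP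
  obtain ⟨P', h2, h3⟩ := h1.exists_eq_pow_mul_and_not_dvd
  exact ⟨_, P', h2, h3⟩

theorem nd_ne {h Q : MvPolynomial (Fin n) ℂ} (hQ : ¬ h ∣ Q) : Q ≠ 0 := fun e => hQ (e ▸ dvd_zero h)

/-- the valuation ring -/
noncomputable def vr (hy : IsCoord y) (h : MvPolynomial (Fin n) ℂ) (hh : Irreducible h) :
    ValuationSubring K where
  carrier := {f | ∃ P Q : MvPolynomial (Fin n) ℂ, ¬ h ∣ Q ∧ f = aeval y P / aeval y Q}
  mul_mem' := by
    rintro a b ⟨P, Q, hQ, rfl⟩ ⟨P', Q', hQ', rfl⟩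
    refine ⟨P * P', Q * Q', ?_, ?_⟩
    · intro h1
      exact (hh.prime.dvd_or_dvd h1).elim hQ hQ'
    · rw [map_mul, map_mul, div_mul_div_comm]
  one_mem' := by
    refine ⟨1, 1, ?_, by simp⟩
    intro h1
    exact hh.not_isUnit (isUnit_of_dvd_one h1)
  add_mem' := by
    rintro a b ⟨P, Q, hQ, rfl⟩ ⟨P', Q', hQ', rfl⟩
    refine ⟨P * Q' + Q * P', Q * Q', ?_, ?_⟩
    · intro h1
      exact (hh.prime.dvd_or_dvd h1).elim hQ hQ'
    · rw [map_add, map_mul, map_mul, map_mul, div_add_div _ _ (phi_ne hy (nd_ne hQ))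
        (phi_ne hy (nd_ne hQ'))]
  zero_mem' := by
    refine ⟨0, 1, ?_, by simp⟩
    intro h1
    exact hh.not_isUnit (isUnit_of_dvd_one h1)
  neg_mem' := by
    rintro a ⟨P, Q, hQ, rfl⟩
    exact ⟨-P, Q, hQ, by rw [map_neg, neg_div]⟩
  mem_or_inv_mem' := by
    intro f
    obtain ⟨P, Q, hQ, rfl⟩ := exists_rep hy f
    by_cases hP : P = 0
    · left
      refine ⟨0, 1, ?_, ?_⟩
      · intro h1
        exact hh.not_isUnit (isUnit_of_dvd_one h1)
      · rw [hP]; simp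
    obtain ⟨a, P', rfl, hP'⟩ := exists_pow h hh P hP
    obtain ⟨b, Q', rfl, hQ'⟩ := exists_pow h hh Q hQ
    have hh0 := phi_ne hy hh.ne_zero
    rcases le_total b a with hab | hab
    · left
      refine ⟨h ^ (a - b) * P', Q', hQ', ?_⟩
      obtain ⟨c, rfl⟩ := Nat.exists_eq_add_of_le hab
      rw [Nat.add_sub_cancel_left, map_mul, map_mul, map_mul, map_pow, map_pow, map_pow, pow_add,
        mul_assoc, mul_div_mul_left _ _ (pow_ne_zero _ hh0)]
    · right
      refine ⟨h ^ (b - a) * Q', P', hP', ?_⟩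
      obtain ⟨c, rfl⟩ := Nat.exists_eq_add_of_le hab
      rw [inv_div, Nat.add_sub_cancel_left, map_mul, map_mul, map_mul, map_pow, map_pow, map_pow,
        pow_add, mul_assoc, mul_div_mul_left _ _ (pow_ne_zero _ hh0)]

theorem mem_vr (hy : IsCoord y) (h : MvPolynomial (Fin n) ℂ) (hh : Irreducible h) (f : K) :
    f ∈ vr hy h hh ↔ ∃ P Q : MvPolynomial (Fin n) ℂ, ¬ h ∣ Q ∧ f = aeval y P / aeval y Q :=
  Iff.rfl

theorem notMem_vr (hy : IsCoord y) (h : MvPolynomial (Fin n) ℂ) (hh : Irreducible h)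
    (P Q : MvPolynomial (Fin n) ℂ) (hP : ¬ h ∣ P) (hQ : Q ≠ 0) (hQ' : h ∣ Q) :
    aeval y P / aeval y Q ∉ vr hy h hh := by
  rintro ⟨P', Q', hQ'', e⟩
  have h1 := rep_eq hy hQ (nd_ne hQ'') e
  have h2 : h ∣ P * Q' := by rw [h1]; exact hQ'.mul_left _
  exact (hh.prime.dvd_or_dvd h2).elim hP hQ''

theorem isUnit_vr (hy : IsCoord y) (h : MvPolynomial (Fin n) ℂ) (hh : Irreducible h)
    (P Q : MvPolynomial (Fin n) ℂ) (hP : ¬ h ∣ P) (hQ : ¬ h ∣ Q)
    (hm : aeval y P / aeval y Q ∈ vr hy h hh) :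
    IsUnit (⟨aeval y P / aeval y Q, hm⟩ : vr hy h hh) := by
  refine IsUnit.of_mul_eq_one (⟨aeval y Q / aeval y P, ⟨Q, P, hP, rfl⟩⟩ : vr hy h hh) ?_
  apply Subtype.ext
  show aeval y P / aeval y Q * (aeval y Q / aeval y P) = 1
  have h1 := phi_ne hy (nd_ne hP)
  have h2 := phi_ne hy (nd_ne hQ)
  field_simp

theorem dvr_vr (hy : IsCoord y) (h : MvPolynomial (Fin n) ℂ) (hh : Irreducible h) :
    IsDiscreteValuationRing (vr hy h hh) := by
  apply IsDiscreteValuationRing.ofHasUnitMulPowIrreducibleFactorization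
  have h1 : ¬ h ∣ 1 := fun h1 => hh.not_isUnit (isUnit_of_dvd_one h1)
  have hmem : aeval y h / aeval y 1 ∈ vr hy h hh := ⟨h, 1, h1, rfl⟩
  refine ⟨⟨aeval y h / aeval y 1, hmem⟩, ?_, ?_⟩
  · constructor
    · intro hu
      obtain ⟨⟨g, hg⟩, hg'⟩ := hu.exists_right_inv
      have h2 : (aeval y h / aeval y 1) * g = 1 := congrArg Subtype.val hg'
      obtain ⟨P, Q, hQ, rfl⟩ := hg
      have h3 := phi_ne hy (nd_ne hQ)
      have h4 : aeval y (h * P) / aeval y Q =
          aeval y (1 : MvPolynomial (Fin n) ℂ) / aeval y (1 : MvPolynomial (Fin n) ℂ) := by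
        rw [map_one, div_one] at h2
        rw [map_mul, map_one, div_one, ← h2, mul_div_assoc]
      have h5 := rep_eq hy (nd_ne hQ) one_ne_zero h4
      rw [mul_one, one_mul] at h5
      exact hQ ⟨P, h5.symm⟩
    · rintro ⟨a, ha⟩ ⟨b, hb⟩ hab
      have hab' : aeval y h / aeval y 1 = a * b := congrArg Subtype.val hab
      have ha' := ha
      have hb' := hb
      obtain ⟨P, Q, hQ, rfl⟩ := ha'
      obtain ⟨P', Q', hQ', rfl⟩ := hb'
      rw [div_mul_div_comm, ← map_mul, ← map_mul] at hab'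
      have hQQ : ¬ h ∣ Q * Q' := fun h1 => (hh.prime.dvd_or_dvd h1).elim hQ hQ'
      have h5 := rep_eq hy one_ne_zero (nd_ne hQQ) hab'
      rw [mul_one] at h5
      have h6 : h ∣ P * P' := ⟨_, h5.symm⟩
      rcases hh.prime.dvd_or_dvd h6 with h7 | h7
      · right
        refine isUnit_vr hy h hh P' Q' ?_ hQ' hb
        rintro h8
        obtain ⟨R, rfl⟩ := h7
        rw [mul_assoc] at h5
        have h9 : Q * Q' = R * P' := mul_left_cancel₀ hh.ne_zero h5
        apply hQQ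
        rw [h9]
        exact h8.mul_left R
      · left
        refine isUnit_vr hy h hh P Q ?_ hQ ha
        rintro h8
        obtain ⟨R, rfl⟩ := h7
        have h9 : Q * Q' = P * R := by
          apply mul_left_cancel₀ hh.ne_zero
          rw [h5]
          ring
        apply hQQ
        rw [h9]
        exact h8.mul_right R
  · rintro ⟨x, hx⟩ hx0
    have hx' := hx
    obtain ⟨P, Q, hQ, rfl⟩ := hx'
    have hP : P ≠ 0 := by
      rintro rfl
      apply hx0
      apply Subtype.ext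
      show aeval y 0 / aeval y Q = 0
      rw [map_zero, zero_div]
    obtain ⟨a, P', rfl, hP'⟩ := exists_pow h hh P hP
    refine ⟨a, ?_⟩
    have hm : aeval y P' / aeval y Q ∈ vr hy h hh := ⟨P', Q, hQ, rfl⟩
    obtain ⟨u, hu⟩ := isUnit_vr hy h hh P' Q hP' hQ hm
    refine ⟨u, ?_⟩
    rw [hu]
    apply Subtype.ext
    show (aeval y h / aeval y 1) ^ a * (aeval y P' / aeval y Q) = aeval y (h ^ a * P') / aeval y Q
    rw [map_one, div_one, map_mul, map_pow, mul_div_assoc]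

theorem der_aeval (D : Fin n → Derivation ℂ K K) (hD : IsDual y D) (i : Fin n)
    (P : MvPolynomial (Fin n) ℂ) : D i (aeval y P) = aeval y (pderiv i P) := by
  induction P using MvPolynomial.induction_on with
  | C a => rw [algHom_C, Derivation.map_algebraMap, pderiv_C, map_zero]
  | add p q hp hq => rw [map_add, map_add, hp, hq, map_add, map_add]
  | mul_X p j hp =>
    rw [map_mul, Derivation.leibniz, aeval_X, hp, hD.1, Derivation.leibniz, map_add,
      smul_eq_mul, smul_eq_mul, smul_eq_mul, smul_eq_mul, map_mul, map_mul, aeval_X, pderiv_X]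
    by_cases hij : i = j
    · subst hij
      simp
    · rw [if_neg hij, Pi.single_eq_of_ne (Ne.symm hij), map_zero]

end

theorem uhvr : UhvrStmt := by
  intro K _ _ n y hy h hh
  refine ⟨vr hy h hh, dvr_vr hy h hh, ?_, ?_, ?_, ?_⟩
  · intro P Q hQ
    exact ⟨P, Q, hQ, rfl⟩
  · intro P Q hQ hP
    have hm : aeval y P / aeval y Q ∈ vr hy h hh := ⟨P, Q, hQ, rfl⟩
    refine (ValuationSubring.valuation_lt_one_iff (vr hy h hh) ⟨_, hm⟩).1 ?_
    rw [IsLocalRing.mem_maximalIdeal, mem_nonunits_iff]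
    intro hu
    obtain ⟨⟨g, hg⟩, hg'⟩ := hu.exists_right_inv
    have h2 : (aeval y P / aeval y Q) * g = 1 := congrArg Subtype.val hg'
    obtain ⟨P', Q', hQ', rfl⟩ := hg
    rw [div_mul_div_comm, ← map_mul, ← map_mul] at h2
    have hQQ : ¬ h ∣ Q * Q' := fun h1 => (hh.prime.dvd_or_dvd h1).elim hQ hQ'
    have h4 : aeval y (P * P') / aeval y (Q * Q') =
        aeval y (1 : MvPolynomial (Fin n) ℂ) / aeval y (1 : MvPolynomial (Fin n) ℂ) := by
      rw [h2, map_one, div_one]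
    have h5 := rep_eq hy (nd_ne hQQ) one_ne_zero h4
    rw [mul_one, one_mul] at h5
    exact hQQ (h5 ▸ hP.mul_right P')
  · intro P Q hP hQ hQ'
    exact notMem_vr hy h hh P Q hP hQ hQ'
  · rintro D hD i f ⟨P, Q, hQ, rfl⟩
    refine ⟨Q * pderiv i P - P * pderiv i Q, Q * Q, ?_, ?_⟩
    · exact fun h1 => (hh.prime.dvd_or_dvd h1).elim hQ hQ
    · have h3 := phi_ne hy (nd_ne hQ)
      rw [Derivation.leibniz_div, der_aeval D hD, der_aeval D hD, smul_eq_mul, smul_eq_mul,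
        smul_eq_mul, map_sub, map_mul, map_mul, map_mul]
      field_simp

end PosGeom.H33
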