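import Mathlib
import Pool.Agent.Helper32_ABCT.Vand

/-!
# Vandermonde vectors: products over pairs of labels
-/

open MvPolynomial

namespace ABCT.H33

open ABCT

/-- product over the pairs of labels of `I`, ordered by `pos` -/
def W {R : Type*} [CommMonoid R] (pos : ℕ → ℕ) (g : ℕ → ℕ → R) (I : Finset ℕ) : R :=
  ∏ x ∈ I, ∏ y ∈ I, if pos x < pos y then g x y else 1

theorem W_congr {R : Type*} [CommMonoid R] (pos pos' : ℕ → ℕ) (g : ℕ → ℕ → R) (I : Finset ℕ)
    (h : ∀ x ∈ I, ∀ y ∈ I, (pos x < pos y ↔ pos' x < pos' y)) : W pos g I = W pos' g I := by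
  unfold W
  refine Finset.prod_congr rfl fun x hx => Finset.prod_congr rfl fun y hy => ?_
  simp only [h x hx y hy]

theorem W_insert {R : Type*} [CommMonoid R] (pos : ℕ → ℕ) (g : ℕ → ℕ → R) (I : Finset ℕ) (a : ℕ)
    (ha : a ∉ I) : W pos g (insert a I) = W pos g I *
      ∏ x ∈ I, ((if pos x < pos a then g x a else 1) * (if pos a < pos x then g a x else 1)) := by
  unfold W
  rw [Finset.prod_insert ha, Finset.prod_insert ha]
  simp only [Finset.prod_insert ha, lt_irrefl, if_false, one_mul, Finset.prod_mul_distrib]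
  rw [mul_comm (∏ x ∈ I, if pos a < pos x then g a x else 1),
    mul_comm (∏ x ∈ I, if pos x < pos a then g x a else 1), mul_assoc]

theorem idxOf_lt_iff_mem (l : List ℕ) (x : ℕ) : l.idxOf x < l.length ↔ x ∈ l :=
  List.idxOf_lt_length_iff

theorem prod_prs {R : Type*} [CommMonoid R] (l : List ℕ) (hl : l.Nodup) (I : Finset ℕ)
    (hI : I ⊆ l.toFinset) (g : ℕ → ℕ → R) :
    ∏ p ∈ prsAll l I, g (l.getD p.1 0) (l.getD p.2 0) = W (fun x => l.idxOf x) g I := by
  unfold W
  rw [← Finset.prod_product', ← Finset.prod_filter (fun q : ℕ × ℕ => l.idxOf q.1 < l.idxOf q.2)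
    (fun q => g q.1 q.2)]
  have hmem : ∀ x ∈ I, x ∈ l := fun x hx => List.mem_toFinset.1 (hI hx)
  refine Finset.prod_bij' (fun p _ => (l.getD p.1 0, l.getD p.2 0))
    (fun q _ => (l.idxOf q.1, l.idxOf q.2)) ?_ ?_ ?_ ?_ ?_
  · intro p hp
    simp only [prsAll, Finset.mem_filter, Finset.mem_product, Finset.mem_range] at hp ⊢
    obtain ⟨⟨h1, h2⟩, h3, h4, h5⟩ := hp
    refine ⟨⟨h4, h5⟩, ?_⟩
    rw [List.getD_eq_getElem _ _ h1, List.getD_eq_getElem _ _ h2, hl.idxOf_getElem,
      hl.idxOf_getElem]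
    exact h3
  · intro q hq
    simp only [prsAll, Finset.mem_filter, Finset.mem_product, Finset.mem_range] at hq ⊢
    obtain ⟨⟨h1, h2⟩, h3⟩ := hq
    have h4 := List.idxOf_lt_length_iff.2 (hmem _ h1)
    have h5 := List.idxOf_lt_length_iff.2 (hmem _ h2)
    refine ⟨⟨h4, h5⟩, h3, ?_, ?_⟩
    · rw [List.getD_eq_getElem _ _ h4, List.getElem_idxOf]; exact h1
    · rw [List.getD_eq_getElem _ _ h5, List.getElem_idxOf]; exact h2
  · intro p hp
    simp only [prsAll, Finset.mem_filter, Finset.mem_product, Finset.mem_range] at hp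
    obtain ⟨⟨h1, h2⟩, h3, h4, h5⟩ := hp
    ext
    · simp only
      rw [List.getD_eq_getElem _ _ h1, hl.idxOf_getElem]
    · simp only
      rw [List.getD_eq_getElem _ _ h2, hl.idxOf_getElem]
  · intro q hq
    simp only [Finset.mem_filter, Finset.mem_product] at hq
    obtain ⟨⟨h1, h2⟩, h3⟩ := hq
    have h4 := List.idxOf_lt_length_iff.2 (hmem _ h1)
    have h5 := List.idxOf_lt_length_iff.2 (hmem _ h2)
    ext
    · simp only
      rw [List.getD_eq_getElem _ _ h4, List.getElem_idxOf]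
    · simp only
      rw [List.getD_eq_getElem _ _ h5, List.getElem_idxOf]
  · intro p hp
    rfl

theorem Q_eq {R : Type*} [CommRing R] (l : List ℕ) (hl : l.Nodup) (r : ℕ) (κ : R) (c t : ℕ → R)
    (I : Finset ℕ) : Q l r κ c t I = if I ∈ l.toFinset.powersetCard r then
      κ * (∏ i ∈ I, c i) * W (fun x => l.idxOf x) (fun x y => t y - t x) I else 0 := by
  unfold Q
  split_ifs with h
  · rw [prod_prs l hl I (Finset.mem_powersetCard.1 h).1 (fun x y => t y - t x)]
  · rfl

end ABCT.H33
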