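import Pool.Agent.Helper32_ABCT.Stmts2
import Pool.Agent.Helper33_ABCT.VBase

/-!
# Minors of Vandermonde vectors (module VMIN)
-/

open MvPolynomial

namespace ABCT.H33

open ABCT

theorem erase_idxOf_lt (l : List ℕ) (i x y : ℕ) (hl : l.Nodup) (hi : i ∈ l)
    (hx : x ∈ l.erase i) (hy : y ∈ l.erase i) :
    (l.idxOf x < l.idxOf y ↔ (l.erase i).idxOf x < (l.erase i).idxOf y) := by
  obtain ⟨A, B, rfl⟩ := List.append_of_mem hi
  have h1 : i ∉ A := by
    intro h
    rw [List.nodup_append] at hl
    exact hl.2.2 i h i (by simp) rfl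
  rw [List.erase_append_right _ h1, List.erase_cons_head] at *
  have hB : i ∉ B := by
    rw [List.nodup_append] at hl
    exact (List.nodup_cons.1 hl.2.1).1
  have hxi : i ≠ x := by
    rintro rfl
    rcases List.mem_append.1 hx with h | h
    · exact h1 h
    · exact hB h
  have hyi : i ≠ y := by
    rintro rfl
    rcases List.mem_append.1 hy with h | h
    · exact h1 h
    · exact hB h
  simp only [List.idxOf_append, List.idxOf_cons_ne _ hxi, List.idxOf_cons_ne _ hyi]
  split_ifs with h2 h3 h3
  · rfl
  · have := List.idxOf_lt_length_iff.2 h2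
    omega
  · have := List.idxOf_lt_length_iff.2 h3
    omega
  · omega

theorem toFinset_erase (l : List ℕ) (i : ℕ) (hl : l.Nodup) :
    (l.erase i).toFinset = l.toFinset.erase i := by
  ext x
  rw [List.mem_toFinset, Finset.mem_erase, List.mem_toFinset, hl.mem_erase_iff]

theorem del_Q {R : Type*} [CommRing R] (l : List ℕ) (r i : ℕ) (hl : l.Nodup) (hi : i ∈ l)
    (κ : R) (c t : ℕ → R) : del i (Q l r κ c t) = Q (l.erase i) r κ c t := by
  funext I
  unfold del
  rw [Q_eq _ hl, Q_eq _ (hl.erase i), toFinset_erase l i hl]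
  by_cases h : i ∈ I
  · rw [if_pos h, if_neg]
    intro h2
    have := (Finset.mem_powersetCard.1 h2).1 h
    simp at this
  · rw [if_neg h]
    by_cases h2 : I ∈ l.toFinset.powersetCard r
    · obtain ⟨h3, h4⟩ := Finset.mem_powersetCard.1 h2
      have h5 : I ⊆ l.toFinset.erase i := fun x hx =>
        Finset.mem_erase.2 ⟨fun e => h (e ▸ hx), h3 hx⟩
      rw [if_pos h2, if_pos (Finset.mem_powersetCard.2 ⟨h5, h4⟩)]
      congr 1
      refine W_congr _ _ _ _ fun x hx y hy => ?_
      refine erase_idxOf_lt l i x y hl hi ?_ ?_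
      · rw [← List.mem_toFinset, toFinset_erase l i hl]; exact h5 hx
      · rw [← List.mem_toFinset, toFinset_erase l i hl]; exact h5 hy
    · rw [if_neg h2, if_neg]
      intro h3
      obtain ⟨h4, h5⟩ := Finset.mem_powersetCard.1 h3
      exact h2 (Finset.mem_powersetCard.2 ⟨h4.trans (Finset.erase_subset _ _), h5⟩)

/-- new scalars after a contraction -/
def cc {R : Type*} [CommRing R] (l : List ℕ) (i : ℕ) (c t : ℕ → R) (x : ℕ) : R :=
  if x ∈ l then c x * ((if l.idxOf x < l.idxOf i then t i - t x else 1) *
    (if l.idxOf i < l.idxOf x then t x - t i else 1)) else 1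

theorem con_Q {R : Type*} [CommRing R] (l : List ℕ) (r i : ℕ) (hl : l.Nodup) (hi : i ∈ l)
    (hr : 1 ≤ r) (κ : R) (c t : ℕ → R) :
    con i (Q l r κ c t) = Q (l.erase i) (r - 1) (κ * c i) (cc l i c t) t := by
  funext I
  unfold con
  rw [Q_eq _ hl, Q_eq _ (hl.erase i), toFinset_erase l i hl]
  by_cases h : i ∈ I
  · rw [if_pos h, if_neg]
    intro h2
    have := (Finset.mem_powersetCard.1 h2).1 h
    simp at this
  · rw [if_neg h]
    by_cases h2 : insert i I ∈ l.toFinset.powersetCard r
    · obtain ⟨h3, h4⟩ := Finset.mem_powersetCard.1 h2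
      have h5 : I ⊆ l.toFinset.erase i := fun x hx =>
        Finset.mem_erase.2 ⟨fun e => h (e ▸ hx), h3 (Finset.mem_insert_of_mem hx)⟩
      have h6 : I.card = r - 1 := by
        rw [Finset.card_insert_of_notMem h] at h4
        omega
      rw [if_pos h2, if_pos (Finset.mem_powersetCard.2 ⟨h5, h6⟩), W_insert _ _ _ _ h,
        Finset.prod_insert h]
      have e1 : W (fun x => l.idxOf x) (fun x y => t y - t x) I =
          W (fun x => (l.erase i).idxOf x) (fun x y => t y - t x) I := by
        refine W_congr _ _ _ _ fun x hx y hy => ?_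
        refine erase_idxOf_lt l i x y hl hi ?_ ?_
        · rw [← List.mem_toFinset, toFinset_erase l i hl]; exact h5 hx
        · rw [← List.mem_toFinset, toFinset_erase l i hl]; exact h5 hy
      have e2 : ∏ x ∈ I, cc l i c t x = (∏ x ∈ I, c x) *
          ∏ x ∈ I, ((if l.idxOf x < l.idxOf i then t i - t x else 1) *
            (if l.idxOf i < l.idxOf x then t x - t i else 1)) := by
        rw [← Finset.prod_mul_distrib]
        refine Finset.prod_congr rfl fun x hx => ?_
        unfold cc
        rw [if_pos (List.mem_toFinset.1 (Finset.mem_of_mem_erase (h5 hx)))]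
      rw [e1, e2]
      ring
    · rw [if_neg h2, if_neg]
      intro h3
      obtain ⟨h4, h5⟩ := Finset.mem_powersetCard.1 h3
      refine h2 (Finset.mem_powersetCard.2 ⟨?_, ?_⟩)
      · rw [Finset.insert_subset_iff]
        exact ⟨List.mem_toFinset.2 hi, h4.trans (Finset.erase_subset _ _)⟩
      · rw [Finset.card_insert_of_notMem h]
        omega

theorem pairwise_idxOf {l : List ℕ} {t : ℕ → ℝ} (h : l.Pairwise (fun a b => t a < t b))
    {x y : ℕ} (hx : x ∈ l) (hy : y ∈ l) (hxy : l.idxOf x < l.idxOf y) : t x < t y := by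
  have h1 := List.idxOf_lt_length_iff.2 hx
  have h2 := List.idxOf_lt_length_iff.2 hy
  have := List.pairwise_iff_getElem.1 h _ _ h1 h2 hxy
  rwa [List.getElem_idxOf, List.getElem_idxOf] at this

theorem vmin : MinorStmt := by
  refine ⟨?_, ?_, ?_, ?_⟩
  · rintro l r i hl hi - z ⟨κ, c, t, hκ, hc, ht, rfl⟩
    exact ⟨κ, c, t, hκ, hc, ht.sublist List.erase_sublist, del_Q l r i hl hi κ c t⟩
  · rintro l r i hl hi hr z ⟨κ, c, t, hκ, hc, ht, rfl⟩
    refine ⟨κ * c i, cc l i c t, t, mul_pos hκ (hc i), fun x => ?_,
      ht.sublist List.erase_sublist, con_Q l r i hl hi hr κ c t⟩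
    unfold cc
    split_ifs with h1 h2 h3 h3
    · omega
    · have := pairwise_idxOf ht h1 hi h2
      rw [mul_one]
      exact mul_pos (hc x) (by linarith)
    · have := pairwise_idxOf ht hi h1 h3
      rw [one_mul]
      exact mul_pos (hc x) (by linarith)
    · rw [one_mul, mul_one]
      exact hc x
    · exact one_pos
  · intro l r i hl hi z hz f hf
    have key : ∀ w : Finset ℕ → ℂ,
        aeval w (aeval (fun I => if i ∈ I then 0 else X I : Finset ℕ → MvPolynomial (Finset ℕ) ℂ) f) =
          aeval (del i w) f := by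
      intro w
      rw [← AlgHom.comp_apply, comp_aeval]
      congr 2
      funext I
      unfold del
      split_ifs
      · exact map_zero _
      · rw [aeval_X]
    have h1 := hz _ (fun κ c t => by
      rw [key, del_Q l r i hl hi]
      exact hf κ c t)
    rw [key] at h1
    convert h1 using 3
    funext I
    unfold del
    split_ifs
    · exact Complex.ofReal_zero
    · rfl
  · intro l r i hl hi hr z hz f hf
    have key : ∀ w : Finset ℕ → ℂ,
        aeval w (aeval (fun I => if i ∈ I then 0 else X (insert i I) :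
          Finset ℕ → MvPolynomial (Finset ℕ) ℂ) f) = aeval (con i w) f := by
      intro w
      rw [← AlgHom.comp_apply, comp_aeval]
      congr 2
      funext I
      unfold con
      split_ifs
      · exact map_zero _
      · rw [aeval_X]
    have h1 := hz _ (fun κ c t => by
      rw [key, con_Q l r i hl hi hr]
      exact hf _ _ t)
    rw [key] at h1
    convert h1 using 3
    funext I
    unfold con
    split_ifs
    · exact Complex.ofReal_zero
    · rfl

end ABCT.H33
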