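import Pool.Agent.Helper32_ABCT.Stmts2
import Pool.Agent.Helper33_ABCT.VBase

/-!
# Rotation of the list of labels (module VROT)
-/

open MvPolynomial

namespace ABCT.H33

open ABCT

theorem W_mul {R : Type*} [CommMonoid R] (pos : ℕ → ℕ) (g h : ℕ → ℕ → R) (I : Finset ℕ) :
    W pos (fun x y => g x y * h x y) I = W pos g I * W pos h I := by
  unfold W
  rw [← Finset.prod_mul_distrib]
  refine Finset.prod_congr rfl fun x _ => ?_
  rw [← Finset.prod_mul_distrib]
  refine Finset.prod_congr rfl fun y _ => ?_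
  split_ifs
  · rfl
  · rw [one_mul]

theorem W_fun_congr {R : Type*} [CommMonoid R] (pos : ℕ → ℕ) (g h : ℕ → ℕ → R) (I : Finset ℕ)
    (H : ∀ x ∈ I, ∀ y ∈ I, pos x < pos y → g x y = h x y) : W pos g I = W pos h I := by
  unfold W
  refine Finset.prod_congr rfl fun x hx => Finset.prod_congr rfl fun y hy => ?_
  split_ifs with h1
  · exact H x hx y hy h1
  · rfl

theorem W_symm {R : Type*} [CommMonoid R] (pos pos' : ℕ → ℕ) (g : ℕ → ℕ → R)
    (hg : ∀ x y, g x y = g y x) (I : Finset ℕ) (h : Set.InjOn pos (I : Set ℕ))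
    (h' : Set.InjOn pos' (I : Set ℕ)) : W pos g I = W pos' g I := by
  induction I using Finset.induction_on with
  | empty => simp [W]
  | insert a I ha ih =>
    rw [W_insert _ _ _ _ ha, W_insert _ _ _ _ ha,
      ih (h.mono (by simp)) (h'.mono (by simp))]
    congr 1
    refine Finset.prod_congr rfl fun x hx => ?_
    have key : ∀ p : ℕ → ℕ, Set.InjOn p ((insert a I : Finset ℕ) : Set ℕ) →
        (if p x < p a then g x a else 1) * (if p a < p x then g a x else 1) = g x a := by
      intro p hp
      have hne : p x ≠ p a := by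
        intro e
        have := hp (by simp [hx]) (by simp) e
        exact ha (this ▸ hx)
      rcases lt_or_gt_of_ne hne with h1 | h1
      · rw [if_pos h1, if_neg (by omega), mul_one]
      · rw [if_neg (by omega), if_pos h1, one_mul, hg]
    rw [key pos h, key pos' h']

theorem W_uu {R : Type*} [CommMonoid R] (pos : ℕ → ℕ) (u : ℕ → R) (I : Finset ℕ)
    (h : Set.InjOn pos (I : Set ℕ)) :
    W pos (fun x y => u x * u y) I = ∏ x ∈ I, u x ^ (I.card - 1) := by
  induction I using Finset.induction_on with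
  | empty => simp [W]
  | insert a I ha ih =>
    rw [W_insert _ _ _ _ ha, ih (h.mono (by simp)), Finset.prod_insert ha,
      Finset.card_insert_of_notMem ha, Nat.add_sub_cancel]
    have h1 : ∀ x ∈ I, (if pos x < pos a then u x * u a else 1) *
        (if pos a < pos x then u a * u x else 1) = u x * u a := by
      intro x hx
      have hne : pos x ≠ pos a := by
        intro e
        have := h (by simp [hx]) (by simp) e
        exact ha (this ▸ hx)
      rcases lt_or_gt_of_ne hne with h1 | h1
      · rw [if_pos h1, if_neg (by omega), mul_one]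
      · rw [if_neg (by omega), if_pos h1, one_mul, mul_comm]
    rw [Finset.prod_congr rfl h1, Finset.prod_mul_distrib, Finset.prod_const, ← mul_assoc,
      ← Finset.prod_mul_distrib, mul_comm]
    congr 1
    refine Finset.prod_congr rfl fun x hx => ?_
    have : 0 < I.card := Finset.card_pos.2 ⟨x, hx⟩
    rw [← pow_succ]
    congr 1
    omega

theorem injOn_idxOf (L : List ℕ) (I : Finset ℕ) (hI : I ⊆ L.toFinset) :
    Set.InjOn (fun x => L.idxOf x) (I : Set ℕ) := by
  intro x hx y hy h
  exact (List.idxOf_inj (List.mem_toFinset.1 (hI hx))).1 h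

theorem lt_of_pw {L : List ℕ} {t : ℕ → ℝ} (h : L.Pairwise (fun a b => t a < t b))
    {x y : ℕ} (hx : x ∈ L) (hy : y ∈ L) (hxy : L.idxOf x < L.idxOf y) : t x < t y := by
  have h1 := List.idxOf_lt_length_iff.2 hx
  have h2 := List.idxOf_lt_length_iff.2 hy
  have := List.pairwise_iff_getElem.1 h _ _ h1 h2 hxy
  rwa [List.getElem_idxOf, List.getElem_idxOf] at this

/-- the absolute Vandermonde form -/
theorem Q_abs (L : List ℕ) (hL : L.Nodup) (r : ℕ) (κ : ℝ) (c t : ℕ → ℝ)
    (ht : L.Pairwise (fun a b => t a < t b)) (I : Finset ℕ) :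
    Q L r κ c t I = if I ∈ L.toFinset.powersetCard r then
      κ * (∏ i ∈ I, c i) * W id (fun x y => |t y - t x|) I else 0 := by
  rw [Q_eq L hL]
  split_ifs with h
  · have hI := (Finset.mem_powersetCard.1 h).1
    congr 1
    rw [W_fun_congr _ (fun x y => t y - t x) (fun x y => |t y - t x|)]
    · exact W_symm _ _ _ (fun x y => abs_sub_comm _ _) _ (injOn_idxOf L I hI)
        (Function.injective_id.injOn)
    · intro x hx y hy hxy
      rw [abs_of_pos]
      have := lt_of_pw ht (List.mem_toFinset.1 (hI hx)) (List.mem_toFinset.1 (hI hy)) hxy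
      linarith
  · rfl

theorem rot_aux (L L' : List ℕ) (r : ℕ) (hL : L.Nodup) (hL' : L'.Nodup)
    (hLL : L.toFinset = L'.toFinset) (κ : ℝ) (c t : ℕ → ℝ) (s : ℝ) (hκ : 0 < κ)
    (hc : ∀ i, 0 < c i) (ht : L.Pairwise (fun a b => t a < t b))
    (hs : ∀ x ∈ L, t x ≠ s)
    (ht' : L'.Pairwise (fun a b => -(t a - s)⁻¹ < -(t b - s)⁻¹)) :
    Q L r κ c t ∈ ZV L' r := by
  refine ⟨κ, fun x => if x ∈ L then c x * |t x - s| ^ (r - 1) else 1, fun x => -(t x - s)⁻¹,
    hκ, fun x => ?_, ht', ?_⟩
  · beta_reduce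
    split_ifs with h
    · exact mul_pos (hc x) (pow_pos (abs_pos.2 (sub_ne_zero.2 (hs x h))) _)
    · exact one_pos
  · funext I
    rw [Q_abs L hL r κ c t ht, Q_abs L' hL' r κ _ _ ht', hLL]
    split_ifs with h
    · obtain ⟨h1, h2⟩ := Finset.mem_powersetCard.1 h
      rw [← hLL] at h1
      have hne : ∀ x ∈ I, t x - s ≠ 0 := fun x hx =>
        sub_ne_zero.2 (hs x (List.mem_toFinset.1 (h1 hx)))
      have e1 : W id (fun x y => |-(t y - s)⁻¹ - -(t x - s)⁻¹|) I =
          W id (fun x y => |t y - t x|) I * ∏ x ∈ I, (|t x - s|⁻¹) ^ (r - 1) := by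
        rw [← h2, ← W_uu id (fun x => |t x - s|⁻¹) I Function.injective_id.injOn, ← W_mul]
        refine W_fun_congr _ _ _ _ fun x hx y hy _ => ?_
        have h3 := hne x hx
        have h4 := hne y hy
        rw [← abs_inv, ← abs_inv, ← abs_mul, ← abs_mul]
        congr 1
        field_simp
        ring
      have e2 : ∏ x ∈ I, (if x ∈ L then c x * |t x - s| ^ (r - 1) else 1) =
          (∏ x ∈ I, c x) * ∏ x ∈ I, |t x - s| ^ (r - 1) := by
        rw [← Finset.prod_mul_distrib]
        refine Finset.prod_congr rfl fun x hx => ?_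
        rw [if_pos (List.mem_toFinset.1 (h1 hx))]
      have e3 : (∏ x ∈ I, |t x - s| ^ (r - 1)) * ∏ x ∈ I, (|t x - s|⁻¹) ^ (r - 1) = 1 := by
        rw [← Finset.prod_mul_distrib]
        refine Finset.prod_eq_one fun x hx => ?_
        rw [← mul_pow, mul_inv_cancel₀ (abs_ne_zero.2 (hne x hx)), one_pow]
      rw [e1, e2]
      calc κ * (∏ i ∈ I, c i) * W id (fun x y => |t y - t x|) I
          = κ * (∏ i ∈ I, c i) * W id (fun x y => |t y - t x|) I *
            ((∏ x ∈ I, |t x - s| ^ (r - 1)) * ∏ x ∈ I, (|t x - s|⁻¹) ^ (r - 1)) := by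
              rw [e3, mul_one]
        _ = _ := by ring
    · rfl

theorem exists_between_list (l : List ℕ) (t : ℕ → ℝ) (b : ℝ) (h : ∀ x ∈ l, b < t x) :
    ∃ s, b < s ∧ ∀ x ∈ l, s < t x := by
  induction l with
  | nil => exact ⟨b + 1, by linarith, by simp⟩
  | cons y l ih =>
    obtain ⟨s, h1, h2⟩ := ih fun x hx => h x (List.mem_cons_of_mem _ hx)
    obtain ⟨s', h3, h4⟩ := exists_between (lt_min h1 (h y List.mem_cons_self))
    refine ⟨s', h3, fun x hx => ?_⟩
    rcases List.mem_cons.1 hx with rfl | hx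
    · exact lt_of_lt_of_le h4 (min_le_right _ _)
    · exact lt_trans (lt_of_lt_of_le h4 (min_le_left _ _)) (h2 x hx)

theorem neg_inv_lt {u v : ℝ} (hu : 0 < u) (huv : u < v) : -u⁻¹ < -v⁻¹ :=
  neg_lt_neg (inv_strictAnti₀ hu huv)

theorem neg_inv_lt' {u v : ℝ} (hv : v < 0) (huv : u < v) : -u⁻¹ < -v⁻¹ := by
  rw [← inv_neg, ← inv_neg]
  exact inv_strictAnti₀ (by linarith) (by linarith)

theorem zrot (l : List ℕ) (r a : ℕ) (h : (a :: l).Nodup) : ZV (a :: l) r = ZV (l ++ [a]) r := by
  have hn := List.nodup_cons.1 h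
  have h' : (l ++ [a]).Nodup := by
    rw [List.nodup_append]
    refine ⟨hn.2, by simp, ?_⟩
    intro x hx y hy hxy
    rw [List.mem_singleton] at hy
    subst hy
    subst hxy
    exact hn.1 hx
  have hf : (a :: l).toFinset = (l ++ [a]).toFinset := by
    ext x
    simp
  apply Set.Subset.antisymm
  · rintro z ⟨κ, c, t, hκ, hc, ht, rfl⟩
    rw [List.pairwise_cons] at ht
    obtain ⟨s, h1, h2⟩ := exists_between_list l t (t a) ht.1
    refine rot_aux (a :: l) (l ++ [a]) r h h' hf κ c t s hκ hc (List.pairwise_cons.2 ht) ?_ ?_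
    · intro x hx
      rcases List.mem_cons.1 hx with rfl | hx
      · exact h1.ne
      · exact (h2 x hx).ne'
    · rw [List.pairwise_append]
      refine ⟨?_, by simp, ?_⟩
      · refine ht.2.imp_of_mem ?_
        intro x y hx hy hxy
        have := h2 x hx
        exact neg_inv_lt (by linarith) (by linarith)
      · intro x hx y hy
        rw [List.mem_singleton] at hy
        subst hy
        have h3 := h2 x hx
        have h4 : 0 < (t x - s)⁻¹ := inv_pos.2 (by linarith)
        have h5 : (t y - s)⁻¹ < 0 := inv_lt_zero.2 (by linarith)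
        linarith
  · rintro z ⟨κ, c, t, hκ, hc, ht, rfl⟩
    rw [List.pairwise_append] at ht
    obtain ⟨s, h1, h2⟩ := exists_between_list l (fun x => - t x) (- t a) (fun x hx =>
      neg_lt_neg (ht.2.2 x hx a (by simp)))
    refine rot_aux (l ++ [a]) (a :: l) r h' h hf.symm κ c t (-s) hκ hc
      (List.pairwise_append.2 ht) ?_ ?_
    · intro x hx
      rcases List.mem_append.1 hx with hx | hx
      · have := h2 x hx
        intro e
        linarith
      · rw [List.mem_singleton] at hx
        subst hx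
        intro e
        linarith
    · rw [List.pairwise_cons]
      refine ⟨?_, ?_⟩
      · intro x hx
        have h3 := h2 x hx
        have h4 : (t x - -s)⁻¹ < 0 := inv_lt_zero.2 (by linarith)
        have h5 : 0 < (t a - -s)⁻¹ := inv_pos.2 (by linarith)
        linarith
      · refine ht.1.imp_of_mem ?_
        intro x y hx hy hxy
        have := h2 y hy
        exact neg_inv_lt' (by linarith) (by linarith)

/-- the change of scalars under a rotation -/
def cr {R : Type*} [CommRing R] (r a : ℕ) (c : ℕ → R) (x : ℕ) : R :=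
  if x = a then (-1) ^ (r - 1) * c x else c x

theorem cr_cr {R : Type*} [CommRing R] (r a : ℕ) (c : ℕ → R) : cr r a (cr r a c) = c := by
  funext x
  unfold cr
  split_ifs
  · rw [← mul_assoc, ← mul_pow, neg_one_mul, neg_neg, one_pow, one_mul]
  · rfl

theorem Q_rot {R : Type*} [CommRing R] (l : List ℕ) (r a : ℕ) (h : (a :: l).Nodup) (κ : R)
    (c t : ℕ → R) : Q (l ++ [a]) r κ c t = Q (a :: l) r κ (cr r a c) t := by
  have hn := List.nodup_cons.1 h
  have h' : (l ++ [a]).Nodup := by
    rw [List.nodup_append]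
    refine ⟨hn.2, by simp, ?_⟩
    intro x hx y hy hxy
    rw [List.mem_singleton] at hy
    subst hy
    subst hxy
    exact hn.1 hx
  have hf : (a :: l).toFinset = (l ++ [a]).toFinset := by
    ext x
    simp
  have i1 : ∀ x ∈ l, (l ++ [a]).idxOf x = l.idxOf x := fun x hx => by
    rw [List.idxOf_append, if_pos hx]
  have i2 : (l ++ [a]).idxOf a = l.length := by
    rw [List.idxOf_append, if_neg hn.1]
    simp
  have i3 : ∀ x ∈ l, (a :: l).idxOf x = l.idxOf x + 1 := fun x hx =>
    List.idxOf_cons_ne _ (fun e => hn.1 (e ▸ hx))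
  have i4 : (a :: l).idxOf a = 0 := List.idxOf_cons_self
  funext I
  rw [Q_eq _ h', Q_eq _ h, hf]
  split_ifs with hI
  swap
  · rfl
  obtain ⟨hI1, hI2⟩ := Finset.mem_powersetCard.1 hI
  have hJ : ∀ J : Finset ℕ, (∀ x ∈ J, x ∈ l) →
      W (fun x => (l ++ [a]).idxOf x) (fun x y => t y - t x) J =
        W (fun x => (a :: l).idxOf x) (fun x y => t y - t x) J := by
    intro J hJ
    refine W_congr _ _ _ _ fun x hx y hy => ?_
    rw [i1 x (hJ x hx), i1 y (hJ y hy), i3 x (hJ x hx), i3 y (hJ y hy)]
    omega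
  by_cases ha : a ∈ I
  · obtain ⟨J, hJa, rfl⟩ : ∃ J, a ∉ J ∧ I = insert a J :=
      ⟨I.erase a, Finset.notMem_erase _ _, (Finset.insert_erase ha).symm⟩
    have hJl : ∀ x ∈ J, x ∈ l := by
      intro x hx
      have := hI1 (Finset.mem_insert_of_mem hx)
      rw [List.mem_toFinset, List.mem_append, List.mem_singleton] at this
      rcases this with h1 | h1
      · exact h1
      · exact absurd (h1 ▸ hx) hJa
    rw [Finset.card_insert_of_notMem hJa] at hI2
    rw [W_insert _ _ _ _ hJa, W_insert _ _ _ _ hJa, hJ J hJl, Finset.prod_insert hJa,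
      Finset.prod_insert hJa]
    have e1 : ∏ x ∈ J, ((if (l ++ [a]).idxOf x < (l ++ [a]).idxOf a then t a - t x else 1) *
        (if (l ++ [a]).idxOf a < (l ++ [a]).idxOf x then t x - t a else 1)) =
        (-1) ^ (r - 1) * ∏ x ∈ J, (t x - t a) := by
      rw [← hI2, Nat.add_sub_cancel, ← Finset.prod_const, ← Finset.prod_mul_distrib]
      refine Finset.prod_congr rfl fun x hx => ?_
      have h1 := List.idxOf_lt_length_iff.2 (hJl x hx)
      rw [i1 x (hJl x hx), i2, if_pos h1, if_neg (by omega)]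
      ring
    have e2 : ∏ x ∈ J, ((if (a :: l).idxOf x < (a :: l).idxOf a then t a - t x else 1) *
        (if (a :: l).idxOf a < (a :: l).idxOf x then t x - t a else 1)) =
        ∏ x ∈ J, (t x - t a) := by
      refine Finset.prod_congr rfl fun x hx => ?_
      rw [i3 x (hJl x hx), i4, if_neg (by omega), if_pos (by omega), one_mul]
    have e3 : ∏ x ∈ J, cr r a c x = ∏ x ∈ J, c x := by
      refine Finset.prod_congr rfl fun x hx => ?_
      unfold cr
      rw [if_neg]
      rintro rfl
      exact hJa hx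
    have e4 : cr r a c a = (-1) ^ (r - 1) * c a := if_pos rfl
    rw [e1, e2, e3, e4]
    ring
  · have hIl : ∀ x ∈ I, x ∈ l := by
      intro x hx
      have := hI1 hx
      rw [List.mem_toFinset, List.mem_append, List.mem_singleton] at this
      rcases this with h1 | h1
      · exact h1
      · exact absurd (h1 ▸ hx) ha
    rw [hJ I hIl]
    have e3 : ∏ x ∈ I, cr r a c x = ∏ x ∈ I, c x := by
      refine Finset.prod_congr rfl fun x hx => ?_
      unfold cr
      rw [if_neg]
      rintro rfl
      exact ha hx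
    rw [e3]

theorem vrot : RotStmt := by
  refine ⟨fun l r a h => zrot l r a h, fun l r a h => ?_⟩
  have h1 : ∀ κ c t, Q (l ++ [a]) r κ c t = Q (a :: l) r κ (cr r a c) t := fun κ c t =>
    Q_rot (R := ℂ) l r a h κ c t
  have h2 : ∀ κ c t, Q (a :: l) r κ c t = Q (l ++ [a]) r κ (cr r a c) t := fun κ c t => by
    rw [h1, cr_cr]
  ext z
  unfold XV
  constructor
  · intro H f hf
    exact H f fun κ c t => by rw [h2]; exact hf _ _ _
  · intro H f hf
    exact H f fun κ c t => by rw [h1]; exact hf _ _ _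

end ABCT.H33
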