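import Pool.Agent.Helper32_ABCT.EStmts

/-!
# The condition of (E) for each label monomial (module ESTAR)
-/

open MvPolynomial

namespace ABCT.H33

open ABCT FlatCell

section

variable {S T T' : FlatCell} (τ : Twist S T) (φ : FacetData T T')

theorem gap_L (hτ : τ.Ok) (k : T.G) :
    aeval (fun h => τ.gap φ h) (τ.L k) = φ.psi (Sum.inr k) := by
  have h1 : (fun h => τ.gap φ h) = fun h => aeval (fun k : T.G => φ.psi (Sum.inr k)) (τ.L' h) :=
    rfl
  rw [h1, ← comp_aeval_apply, hτ.inv', aeval_X]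

theorem eval₂_nat_int {R G : Type*} [CommRing R] [Algebra ℤ R] (x : G → R) (p : MvPolynomial G ℕ) :
    eval₂ (Nat.castRingHom R) x p = aeval x (MvPolynomial.map (Nat.castRingHom ℤ) p) := by
  rw [aeval_def, eval₂_map]
  congr 1
  exact Subsingleton.elim _ _

theorem eps_T (hτ : τ.Ok) (I : Finset ℕ) :
    eval₂ (Nat.castRingHom (RatFunc T'.F)) (fun k => φ.psi (Sum.inr k)) (T.Δ I) =
      ((τ.ε I : ℤ) : RatFunc T'.F) *
      eval₂ (Nat.castRingHom (RatFunc T'.F)) (fun h => τ.gap φ h) (S.Δ I) := by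
  have h1 := congrArg (aeval (fun h => τ.gap φ h)) (hτ.eq I)
  rw [comp_aeval_apply, map_mul, algHom_C] at h1
  rw [eval₂_nat_int, eval₂_nat_int]
  simp only [gap_L τ φ hτ] at h1
  rw [h1]
  congr 1
  exact eq_intCast _ _

/-- the values of the variables of `S` -/
noncomputable def yy (v : S.V) : RatFunc T'.F :=
  match v with
  | Sum.inl i => φ.psi (Sum.inl i)
  | Sum.inr h => τ.gap φ h

theorem eps_P (hτ : τ.Ok) (I : Finset ℕ) :
    ((τ.ε I : ℤ) : RatFunc T'.F) * φ.P I = S.ev (yy τ φ) I := by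
  rw [phi_P_eq, eps_T τ φ hτ, ev_eq]
  have h2 : ((τ.ε I : ℤ) : RatFunc T'.F) * ((τ.ε I : ℤ) : RatFunc T'.F) = 1 := by
    rcases hτ.sgn I with h | h <;> rw [h] <;> simp
  calc _ = (((τ.ε I : ℤ) : RatFunc T'.F) * ((τ.ε I : ℤ) : RatFunc T'.F)) *
        ((∏ i ∈ I, φ.psi (Sum.inl i)) *
        eval₂ (Nat.castRingHom (RatFunc T'.F)) (fun h => τ.gap φ h) (S.Δ I)) := by ring
    _ = _ := by rw [h2, one_mul]; rfl

theorem P_eps (hτ : τ.Ok) (I : Finset ℕ) :
    φ.P I = ((τ.ε I : ℤ) : RatFunc T'.F) * ((∏ i ∈ I, φ.psi (Sum.inl i)) *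
        eval₂ (Nat.castRingHom (RatFunc T'.F)) (fun h => τ.gap φ h) (S.Δ I)) := by
  rw [phi_P_eq, eps_T τ φ hτ]
  ring

theorem psi_ne (hφ : φ.Ok) (v : T.V) : φ.psi v ≠ 0 := by
  rw [FacetData.psi]
  exact mul_ne_zero (zpow_ne_zero _ s_ne_zero) (by
    rw [Ne, map_eq_zero]; exact PosF.ne_zero (hφ.wpos v))

theorem prod_card {M : Type*} [CommMonoid M] (A : Finset (Finset ℕ)) (U : Finset ℕ)
    (hU : ∀ I ∈ A, I ⊆ U) (a : ℕ → M) :
    ∏ I ∈ A, ∏ i ∈ I, a i = ∏ i ∈ U, a i ^ (A.filter fun I => i ∈ I).card := by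
  have h1 : ∀ I ∈ A, ∏ i ∈ I, a i = ∏ i ∈ U, if i ∈ I then a i else 1 := by
    intro I hI
    rw [Finset.prod_ite_mem, Finset.inter_eq_right.2 (hU I hI)]
  rw [Finset.prod_congr rfl h1, Finset.prod_comm]
  refine Finset.prod_congr rfl fun i _ => ?_
  rw [← Finset.prod_filter, Finset.prod_const]

theorem prod_supp {M : Type*} [CommMonoid M] (v : ℕ →₀ ℕ) (U : Finset ℕ) (h : v.support ⊆ U)
    (a : ℕ → M) : (v.prod fun i n => a i ^ n) = ∏ i ∈ U, a i ^ v i :=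
  Finsupp.prod_of_support_subset v h _ (fun _ _ => pow_zero _)

/-- the exponents as a finitely supported function -/
noncomputable def wf (S : FlatCell) (n : ℕ) (U : Finset ℕ) (v : ℕ →₀ ℕ) : ℕ →₀ ℤ :=
  Finsupp.onFinset U (fun i => if i ∈ U then ww S n v i else 0) (by
    intro i h
    by_contra h1
    exact h (if_neg h1))

theorem wf_apply (S : FlatCell) (n : ℕ) (U : Finset ℕ) (v : ℕ →₀ ℕ) (i : ℕ) (hi : i ∈ U) :
    wf S n U v i = ww S n v i := by
  rw [wf, Finsupp.onFinset_apply, if_pos hi]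

theorem wf_support (S : FlatCell) (n : ℕ) (U : Finset ℕ) (v : ℕ →₀ ℕ) :
    (wf S n U v).support ⊆ U := Finsupp.support_onFinset_subset

theorem wf_inj (S : FlatCell) (n : ℕ) (U : Finset ℕ) (v v' : ℕ →₀ ℕ) (hv : v.support ⊆ U)
    (hv' : v'.support ⊆ U) (h : wf S n U v = wf S n U v') : v = v' := by
  ext i
  by_cases hi : i ∈ U
  · have h1 := DFunLike.congr_fun h i
    rw [wf_apply S n U v i hi, wf_apply S n U v' i hi] at h1
    unfold ww at h1
    omega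
  · have h1 : v i = 0 := by
      by_contra h2
      exact hi (hv (Finsupp.mem_support_iff.2 h2))
    have h3 : v' i = 0 := by
      by_contra h2
      exact hi (hv' (Finsupp.mem_support_iff.2 h2))
    rw [h1, h3]

/-- the label free part of the term of `v` -/
noncomputable def gv (n : ℕ) (N : MvPolynomial (Finset ℕ) ℂ) (v : ℕ →₀ ℕ) : RatFunc T'.F :=
  aeval (fun h => τ.gap φ h) (cf S N v) /
    (∏ I ∈ S.M, (eval₂ (Nat.castRingHom _) (fun h => τ.gap φ h) (S.Δ I)) ^ n) *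
    ((∏ᶠ k : T.G, φ.psi (Sum.inr k)) / (∏ᶠ h : S.G, τ.gap φ h))

/-- the label free part, with the powers of `s` -/
noncomputable def hv (n : ℕ) (N : MvPolynomial (Finset ℕ) ℂ) (U : Finset ℕ) (v : ℕ →₀ ℕ) :
    RatFunc T'.F :=
  (∏ i ∈ U, (sVar T'.F ^ φ.lam (Sum.inl i) *
    RatFunc.C (φ.w (Sum.inl i) / T'.x (Sum.inl i))) ^ ww S n v i) * gv τ φ n N v

theorem aux_div {K : Type*} [Field K] (E A B g : K) (hE : E ≠ 0) :
    E * (A / (E * B) * g) = A / B * g := by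
  rw [← mul_assoc, ← mul_div_assoc, mul_div_mul_left _ _ hE]

theorem aux_div2 {K : Type*} [Field K] (a b c d g : K) :
    a * b / (c * d) * g = a / c * (b / d * g) := by
  rw [mul_div_mul_comm, mul_assoc]

theorem term_eq (n : ℕ) (N : MvPolynomial (Finset ℕ) ℂ) (U : Finset ℕ)
    (v : ℕ →₀ ℕ) :
    (∏ i ∈ U, φ.psi (Sum.inl i) ^ ww S n v i) * gv τ φ n N v =
      RatFunc.C ((wf S n U v).prod fun i a => (xx (Sum.inl i) : T'.F) ^ a) *
        hv τ φ n N U v := by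
  rw [hv, ← mul_assoc]
  congr 1
  rw [Finsupp.prod_of_support_subset _ (wf_support S n U v) _ (fun _ _ => zpow_zero _),
    map_prod, ← Finset.prod_mul_distrib]
  refine Finset.prod_congr rfl fun i hi => ?_
  rw [wf_apply S n U v i hi, map_zpow₀, ← mul_zpow]
  congr 1
  rw [FacetData.psi, flat_x, map_div₀]
  have : RatFunc.C (xx (Sum.inl i) : T'.F) ≠ 0 := by
    rw [Ne, map_eq_zero]; exact xx_ne_zero _
  field_simp

theorem fg_eq (h3 : EexpStmt) (hS : S.Wf) (hτ : τ.Ok) (hφ : φ.Ok) (n : ℕ)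
    (N : MvPolynomial (Finset ℕ) ℂ) (U : Finset ℕ) (hU : ∀ I ∈ S.M, I ⊆ U) :
    (∏ I ∈ S.M, ((τ.ε I : ℤ) : RatFunc T'.F) ^ n) * τ.fg φ n N =
      ∑ v ∈ cfs S N, (∏ i ∈ U, φ.psi (Sum.inl i) ^ ww S n v i) * gv τ φ n N v := by
  obtain ⟨e1, -, -, e4⟩ := h3
  have hne : (∏ I ∈ S.M, ((τ.ε I : ℤ) : RatFunc T'.F) ^ n) ≠ 0 := by
    rw [Finset.prod_ne_zero_iff]
    intro I _
    apply pow_ne_zero
    rcases hτ.sgn I with h | h <;> rw [h] <;> simp
  have hU' : ∀ I, S.Δ I ≠ 0 → I ⊆ U := fun I hI => hU I ((hS.ne I).1 hI)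
  have hP : ∏ I ∈ S.M, φ.P I ^ n = (∏ I ∈ S.M, ((τ.ε I : ℤ) : RatFunc T'.F) ^ n) *
      ((∏ i ∈ U, φ.psi (Sum.inl i) ^ (n * (S.M.filter fun I => i ∈ I).card)) *
      (∏ I ∈ S.M, (eval₂ (Nat.castRingHom _) (fun h => τ.gap φ h) (S.Δ I)) ^ n)) := by
    rw [Finset.prod_congr rfl fun I _ => by rw [P_eps τ φ hτ I]]
    simp only [mul_pow, Finset.prod_mul_distrib]
    congr 2
    simp only [← Finset.prod_pow]
    rw [prod_card S.M U hU (fun i => φ.psi (Sum.inl i) ^ n)]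
    refine Finset.prod_congr rfl fun i _ => ?_
    rw [← pow_mul]
  have hN : aeval (fun I => ((τ.ε I : ℤ) : RatFunc T'.F) * φ.P I) N =
      ∑ v ∈ cfs S N, (∏ i ∈ U, φ.psi (Sum.inl i) ^ v i) *
        aeval (fun h => τ.gap φ h) (cf S N v) := by
    have : (fun I => ((τ.ε I : ℤ) : RatFunc T'.F) * φ.P I) = fun I => S.ev (yy τ φ) I :=
      funext fun I => eps_P τ φ hτ I
    rw [this, e1 S _ (yy τ φ) N]
    refine Finset.sum_congr rfl fun v hv => ?_
    have hv' : cf S N v ≠ 0 := by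
      rw [cfs, mem_support_iff] at hv
      exact hv
    rw [prod_supp v U (e4 S N U hU' v hv')]
    rfl
  rw [Twist.fg, hN, hP, aux_div _ _ _ _ hne, Finset.sum_div, Finset.sum_mul]
  refine Finset.sum_congr rfl fun v _ => ?_
  have h5 : (∏ i ∈ U, φ.psi (Sum.inl i) ^ (n * (S.M.filter fun I => i ∈ I).card)) ≠ 0 := by
    rw [Finset.prod_ne_zero_iff]
    intro i _
    exact pow_ne_zero _ (psi_ne φ hφ _)
  have h6 : ∏ i ∈ U, φ.psi (Sum.inl i) ^ ww S n v i = (∏ i ∈ U, φ.psi (Sum.inl i) ^ v i) /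
      (∏ i ∈ U, φ.psi (Sum.inl i) ^ (n * (S.M.filter fun I => i ∈ I).card)) := by
    rw [← Finset.prod_div_distrib]
    refine Finset.prod_congr rfl fun i _ => ?_
    rw [ww, zpow_sub₀ (psi_ne φ hφ _), zpow_natCast, ← Nat.cast_mul, zpow_natCast]
  rw [h6, gv]
  exact aux_div2 _ _ _ _ _

theorem mapR_psi_gap (hφ : φ.Ok) (t : T'.V → ℂ) (ht : ∀ u, t u ≠ 0)
    (h1 : ∀ h, t (Sum.inr h) = 1) (k : T.G) :
    mapR (scal t ht) (φ.psi (Sum.inr k)) = φ.psi (Sum.inr k) := by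
  rw [FacetData.psi, map_mul, map_zpow₀, mapR_s, mapR_C, scal_gap T' t ht h1 _ (hφ.wgap k)]

theorem mapR_tgap (hφ : φ.Ok) (t : T'.V → ℂ) (ht : ∀ u, t u ≠ 0)
    (h1 : ∀ h, t (Sum.inr h) = 1) (h : S.G) :
    mapR (scal t ht) (τ.gap φ h) = τ.gap φ h := by
  rw [Twist.gap, aeval_def, hom_eval₂]
  congr 1
  · exact Subsingleton.elim _ _
  · funext k
    exact mapR_psi_gap φ hφ t ht h1 k

theorem ratfunc_algebraMap {K : Type*} [Field K] [Algebra ℂ K] (a : ℂ) :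
    algebraMap ℂ (RatFunc K) a = RatFunc.C (algebraMap ℂ K a) := by
  rfl

theorem mapR_gv (hφ : φ.Ok) [Finite S.G] [Finite T.G] (n : ℕ) (N : MvPolynomial (Finset ℕ) ℂ)
    (v : ℕ →₀ ℕ) (t : T'.V → ℂ) (ht : ∀ u, t u ≠ 0)
    (h1 : ∀ h, t (Sum.inr h) = 1) :
    mapR (scal t ht) (gv τ φ n N v) = gv τ φ n N v := by
  have := Fintype.ofFinite S.G
  have := Fintype.ofFinite T.G
  rw [gv, map_mul, map_div₀, map_div₀, map_prod]
  congr 2
  · rw [aeval_def, hom_eval₂]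
    congr 1
    · ext a
      rw [RingHom.comp_apply, ratfunc_algebraMap, mapR_C, scal_C]
    · funext h
      exact mapR_tgap τ φ hφ t ht h1 h
  · refine Finset.prod_congr rfl fun I _ => ?_
    rw [map_pow, hom_eval₂]
    congr 2
    · exact Subsingleton.elim _ _
    · funext h
      exact mapR_tgap τ φ hφ t ht h1 h
  · rw [finprod_eq_prod_of_fintype, map_prod]
    exact Finset.prod_congr rfl fun k _ => mapR_psi_gap φ hφ t ht h1 k
  · rw [finprod_eq_prod_of_fintype, map_prod]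
    exact Finset.prod_congr rfl fun k _ => mapR_tgap τ φ hφ t ht h1 k

end

theorem ordGe_neg_one_pow (h1 : OrdStmt) {K : Type} [Field K] (a f : RatFunc K) (n : ℤ)
    (ha : a = 1 ∨ a = -1) (h : OrdGe f n) : OrdGe (a * f) n := by
  obtain ⟨-, hmul, -, hC, -⟩ := h1
  have h2 : OrdGe a 0 := by
    rcases ha with rfl | rfl
    · simpa using hC K 1
    · simpa using hC K (-1)
  have := hmul K a f 0 n h2 h
  rwa [zero_add] at this

theorem estar (h1 : OrdStmt) (h2 : OrdwStmt) (h3 : EexpStmt) : EstarStmt := by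
  intro S T T' τ φ n N U hS hT hSG hTG hU hτ hφ hord v hv0
  classical
  have e4 := h3.2.2.2
  have hU' : ∀ I, S.Δ I ≠ 0 → I ⊆ U := fun I hI => hU I ((hS.ne I).1 hI)
  have hmem : v ∈ cfs S N := by
    rw [cfs, mem_support_iff]
    exact hv0
  have hsupp : ∀ v ∈ cfs S N, v.support ⊆ U := by
    intro v hv
    refine e4 S N U hU' v ?_
    rw [cfs, mem_support_iff] at hv
    exact hv
  have hinj : Set.InjOn (wf S n U) (cfs S N : Set (ℕ →₀ ℕ)) := fun v hv v' hv' h =>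
    wf_inj S n U v v' (hsupp v hv) (hsupp v' hv') h
  set V : Finset (ℕ →₀ ℤ) := (cfs S N).image (wf S n U) with hV
  set inv : (ℕ →₀ ℤ) → (ℕ →₀ ℕ) := Function.invFunOn (wf S n U) (cfs S N : Set (ℕ →₀ ℕ)) with hinv
  have hinv' : ∀ v ∈ cfs S N, inv (wf S n U v) = v := fun v hv =>
    hinj.leftInvOn_invFunOn hv
  have key := h2 T' V (fun a => hv τ φ n N U (inv a)) 1 ?_ ?_ (wf S n U v)
    (Finset.mem_image_of_mem _ hmem)
  · beta_reduce at key
    rw [hinv' v hmem] at key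
    obtain ⟨-, hmul, -, hC, hs, -⟩ := h1
    have hsum : ∀ U : Finset ℕ, OrdGe (∏ i ∈ U, (sVar T'.F ^ φ.lam (Sum.inl i) *
        RatFunc.C (φ.w (Sum.inl i) / T'.x (Sum.inl i))) ^ (-ww S n v i))
        (-∑ i ∈ U, φ.lam (Sum.inl i) * ww S n v i) := by
      intro U
      induction U using Finset.induction_on with
      | empty => simpa using hC T'.F 1
      | insert a U ha ih =>
        rw [Finset.prod_insert ha, Finset.sum_insert ha, neg_add]
        refine hmul _ _ _ _ _ ?_ ih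
        rw [mul_zpow, ← zpow_mul, ← map_zpow₀, mul_neg]
        have := hmul _ _ _ _ _ (hs T'.F (-(φ.lam (Sum.inl a) * ww S n v a)))
          (hC T'.F ((φ.w (Sum.inl a) / T'.x (Sum.inl a)) ^ (-ww S n v a)))
        rwa [add_zero] at this
    have h5 := hmul _ _ _ _ _ key (hsum U)
    rw [← sub_eq_add_neg] at h5
    have h6 : gv τ φ n N v = hv τ φ n N U v * ∏ i ∈ U, (sVar T'.F ^ φ.lam (Sum.inl i) *
        RatFunc.C (φ.w (Sum.inl i) / T'.x (Sum.inl i))) ^ (-ww S n v i) := by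
      have h7 : (∏ i ∈ U, (sVar T'.F ^ φ.lam (Sum.inl i) *
        RatFunc.C (φ.w (Sum.inl i) / T'.x (Sum.inl i))) ^ ww S n v i) *
          (∏ i ∈ U, (sVar T'.F ^ φ.lam (Sum.inl i) *
        RatFunc.C (φ.w (Sum.inl i) / T'.x (Sum.inl i))) ^ (-ww S n v i)) = 1 := by
        rw [← Finset.prod_mul_distrib]
        refine Finset.prod_eq_one fun i _ => ?_
        have h8 : sVar T'.F ^ φ.lam (Sum.inl i) *
            RatFunc.C (φ.w (Sum.inl i) / T'.x (Sum.inl i)) ≠ 0 := by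
          refine mul_ne_zero (zpow_ne_zero _ s_ne_zero) ?_
          rw [Ne, map_eq_zero]
          exact div_ne_zero (PosF.ne_zero (hφ.wpos _)) (xx_ne_zero _)
        rw [← zpow_add₀ h8, add_neg_cancel, zpow_zero]
      rw [hv]
      calc gv τ φ n N v = 1 * gv τ φ n N v := (one_mul _).symm
        _ = _ := by rw [← h7]; ring
    rw [← h6] at h5
    exact h5
  · intro a ha t ht ht1
    rw [hv, map_mul, mapR_gv τ φ hφ n N _ t ht ht1, map_prod]
    congr 1
    refine Finset.prod_congr rfl fun i _ => ?_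
    rw [map_zpow₀, map_mul, map_zpow₀, mapR_s, mapR_C, scal_gap T' t ht ht1 _ (hφ.wlab i)]
  · rw [Finset.sum_image hinj]
    have h5 : ∑ x ∈ cfs S N, RatFunc.C ((wf S n U x).prod fun i a => (xx (Sum.inl i) : T'.F) ^ a) *
        hv τ φ n N U (inv (wf S n U x)) =
        ∑ v ∈ cfs S N, (∏ i ∈ U, φ.psi (Sum.inl i) ^ ww S n v i) * gv τ φ n N v := by
      refine Finset.sum_congr rfl fun x hx => ?_
      rw [hinv' x hx, term_eq τ φ]
    rw [h5, ← fg_eq τ φ h3 hS hτ hφ n N U hU]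
    refine ordGe_neg_one_pow h1 _ _ _ ?_ hord
    refine Finset.prod_induction _ (fun a => a = 1 ∨ a = -1) ?_ (Or.inl rfl) ?_
    · rintro a b (rfl | rfl) (rfl | rfl) <;> simp
    · intro I _
      rcases hτ.sgn I with h | h <;> rw [h]
      · left; simp
      · push_cast
        exact neg_one_pow_eq_or _ n

end ABCT.H33
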