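import Pool.Agent.Helper32_ABCT.EStmts
import Pool.Agent.Helper32_ABCT.NWf

/-!
# Toric nets, contexts: small modules (TOR, CTXD, EALL)
-/

open MvPolynomial

namespace ABCT.H33

open ABCT FlatCell

theorem toric_delta : ∀ S : Net, S.Valid → S.Toric → ∀ I ∈ S.M, S.Δ I = 1
  | Net.black l, _, _, I, hI => by rw [Net.Δ, if_pos hI]
  | Net.white l, _, _, I, hI => by rw [Net.Δ, if_pos hI]
  | Net.gen l r, _, h, I, hI => h.elim
  | Net.dsum S T, hv, ht, I, hI => by
    obtain ⟨v1, v2, v3⟩ := hv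
    have w1 := Net.wf' S v1
    have w2 := Net.wf' T v2
    obtain ⟨h1, h2, h3⟩ := (dsum_mem_iff S T w1.sub w2.sub v3 I).1 hI
    rw [Net.Δ, if_pos h1, toric_delta S v1 ht.1 _ h2, toric_delta T v2 ht.2 _ h3, map_one,
      map_one, one_mul]
  | Net.tsum S T q, hv, ht, I, hI => by
    obtain ⟨v1, v2, v3, v4, v5, v6, v7, v8⟩ := hv
    have w1 := Net.wf' S v1
    have w2 := Net.wf' T v2
    obtain ⟨h1, h2⟩ := (tsum_mem_iff S T q w1.sub w2.sub v7 I).1 hI
    have q1 : q ∉ I ∩ S.E.erase q := fun h => by simp at h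
    have q2 : q ∉ I ∩ T.E.erase q := fun h => by simp at h
    rw [Net.Δ, if_pos h1]
    rcases h2 with ⟨h2, h3⟩ | ⟨h2, h3⟩
    · have h4 : T.Δ (I ∩ T.E.erase q) = 0 := by
        by_contra h
        have h5 := w2.card _ ((w2.ne _).1 h)
        have h6 := w2.card _ h3
        rw [Finset.card_insert_of_notMem q2] at h6
        omega
      rw [toric_delta S v1 ht.1 _ h2, toric_delta T v2 ht.2 _ h3, h4, map_one, map_one, map_zero,
        mul_zero, one_mul, add_zero]
    · have h4 : S.Δ (I ∩ S.E.erase q) = 0 := by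
        by_contra h
        have h5 := w1.card _ ((w1.ne _).1 h)
        have h6 := w1.card _ h2
        rw [Finset.card_insert_of_notMem q1] at h6
        omega
      rw [toric_delta S v1 ht.1 _ h2, toric_delta T v2 ht.2 _ h3, h4, map_one, map_one, map_zero,
        zero_mul, one_mul, zero_add]

theorem toric_facet (S S' : Net) (hS : S.Toric) (h : Net.Facet S S') : S'.Toric := by
  induction h with
  | black l x hx hl => exact ⟨trivial, trivial⟩
  | white l x hx hl => exact ⟨trivial, trivial⟩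
  | gen => exact hS.elim
  | dsumL S T S' h ih => exact ⟨ih hS.1, hS.2⟩
  | dsumR S T T' h ih => exact ⟨hS.1, ih hS.2⟩
  | tsumL S T S' q hq h ih => exact ⟨ih hS.1, hS.2⟩
  | tsumR S T T' q hq h ih => exact ⟨hS.1, ih hS.2⟩
  | tsumB S T S' T' q h1 h2 h3 h h' ih ih' => exact ⟨ih hS.1, ih' hS.2⟩

theorem tor : TorStmt := ⟨toric_delta, toric_facet⟩

theorem ctxd : CtxDStmt := by
  intro S
  induction S with
  | black l => exact Or.inl trivial
  | white l => exact Or.inl trivial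
  | gen l r => exact Or.inr ⟨Ctx.hole, l, r, rfl⟩
  | dsum S T ihS ihT =>
    rcases ihS with h | ⟨C, l, r, rfl⟩
    · rcases ihT with h' | ⟨C, l, r, rfl⟩
      · exact Or.inl ⟨h, h'⟩
      · exact Or.inr ⟨Ctx.dsumR S C, l, r, rfl⟩
    · exact Or.inr ⟨Ctx.dsumL C T, l, r, rfl⟩
  | tsum S T q ihS ihT =>
    rcases ihS with h | ⟨C, l, r, rfl⟩
    · rcases ihT with h' | ⟨C, l, r, rfl⟩
      · exact Or.inl ⟨h, h'⟩
      · exact Or.inr ⟨Ctx.tsumR S C q, l, r, rfl⟩
    · exact Or.inr ⟨Ctx.tsumL C T q, l, r, rfl⟩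

theorem eall (h1 : EtorStmt) (h2 : EgenStmt) : EallStmt := by
  intro S hS hr hM
  rcases ctxd S with h | ⟨C, l, r, rfl⟩
  · exact h1 S hS h hr hM
  · exact h2 C l r hS

end ABCT.H33
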